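import Mathlib

namespace Pool.Agent.X43.KT

open Cardinal Set

/-- `J` is an ideal on the set of natural numbers: a proper ideal of subsets, containing every
finite set. -/
structure IsIdl (J : Set (Set ℕ)) : Prop where
  down : ∀ A ∈ J, ∀ B, B ⊆ A → B ∈ J
  union : ∀ A ∈ J, ∀ B ∈ J, A ∪ B ∈ J
  fin : ∀ A : Set ℕ, A.Finite → A ∈ J
  proper : (univ : Set ℕ) ∉ J

/-- Katetov order: `A ≤_K J`. -/
def KatLE (A J : Set (Set ℕ)) : Prop := ∃ f : ℕ → ℕ, ∀ a ∈ A, f ⁻¹' a ∈ J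

/-- `A` generates an ideal: no finite union of members of `A` is cofinite. -/
def GenIdl (A : Set (Set ℕ)) : Prop :=
  ∀ F : Set (Set ℕ), F.Finite → F ⊆ A → ¬ ((⋃₀ F)ᶜ).Finite

/-- The cardinal `p_K(star, J)`, with value `⊤` when no such `A` exists. -/
noncomputable def pKStar (J : Set (Set ℕ)) : WithTop Cardinal.{0} :=
  sInf {k | ∃ A : Set (Set ℕ), GenIdl A ∧ ¬ KatLE A J ∧
    k = ((#A : Cardinal.{0}) : WithTop Cardinal.{0})}

/-- The disjoint sum of two ideals, moved to the natural numbers by `(0,n) ↦ 2n`,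
`(1,n) ↦ 2n+1`. -/
def dsum (J0 J1 : Set (Set ℕ)) : Set (Set ℕ) :=
  {A | {n | 2 * n ∈ A} ∈ J0 ∧ {n | 2 * n + 1 ∈ A} ∈ J1}

/-! ### pull-backs along the two projections -/

def pull (q : ℕ → ℕ) (J : Set (Set ℕ)) : Set (Set ℕ) := {X | ∃ a ∈ J, X ⊆ q ⁻¹' a}

theorem pull_idl {q : ℕ → ℕ} (hq : Function.Surjective q) {J : Set (Set ℕ)} (hJ : IsIdl J) :
    IsIdl (pull q J) := by
  refine ⟨?_, ?_, ?_, ?_⟩
  · rintro A ⟨a, ha, h⟩ B hB
    exact ⟨a, ha, hB.trans h⟩
  · rintro A ⟨a, ha, h⟩ B ⟨b, hb, h'⟩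
    refine ⟨a ∪ b, hJ.union a ha b hb, ?_⟩
    rw [preimage_union]
    exact union_subset_union h h'
  · intro A hA
    exact ⟨q '' A, hJ.fin _ (hA.image q), subset_preimage_image q A⟩
  · rintro ⟨a, ha, h⟩
    apply hJ.proper
    have : a = Set.univ := by
      apply eq_univ_of_forall
      intro y
      obtain ⟨x, rfl⟩ := hq y
      exact h (mem_univ x)
    rwa [this] at ha

def p0 (z : ℕ) : ℕ := (Nat.unpair z).1
def p1 (z : ℕ) : ℕ := (Nat.unpair z).2

theorem p0_surj : Function.Surjective p0 := fun n => ⟨Nat.pair n 0, by simp [p0]⟩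
theorem p1_surj : Function.Surjective p1 := fun n => ⟨Nat.pair 0 n, by simp [p1]⟩

theorem fin_pre {J : Set (Set ℕ)} (hJ : IsIdl J) (f : ℕ → ℕ) (h1 : ∀ v, f ⁻¹' {v} ∈ J)
    (V : Set ℕ) (hV : V.Finite) : f ⁻¹' V ∈ J := by
  induction V, hV using Set.Finite.induction_on with
  | empty => rw [preimage_empty]; exact hJ.fin _ finite_empty
  | insert _ _ ih =>
    rw [insert_eq, preimage_union]
    exact hJ.union _ (h1 _) _ ih

section tower

variable {K : Type} [LinearOrder K] [Nonempty K]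

def AT (T : K → Set ℕ) : Set (Set ℕ) := (range fun ξ => (T ξ)ᶜ) ∪ range (fun n : ℕ => ({n} : Set ℕ))

theorem AT_gen (T : K → Set ℕ) (hTinf : ∀ ξ, (T ξ).Infinite)
    (hTdec : ∀ ξ η, ξ ≤ η → (T η \ T ξ).Finite) : GenIdl (AT T) := by
  intro F hF hFA hfin
  have key : ∃ η, (T η ∩ ⋃₀ F).Finite := by
    clear hfin
    induction F, hF using Set.Finite.induction_on with
    | empty => exact ⟨Classical.arbitrary K, by simp⟩
    | @insert a S _ _ ih =>
      obtain ⟨η, hη⟩ := ih (fun x hx => hFA (mem_insert_of_mem _ hx))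
      rcases hFA (mem_insert a S) with ⟨ξ, rfl⟩ | ⟨n, rfl⟩
      · refine ⟨max ξ η, ?_⟩
        refine (((hTdec ξ _ (le_max_left ξ η)).union (hTdec η _ (le_max_right ξ η))).union
          hη).subset ?_
        rintro x ⟨hx, hx'⟩
        rw [sUnion_insert] at hx'
        rcases hx' with hx' | hx'
        · exact Or.inl (Or.inl ⟨hx, hx'⟩)
        · by_cases h : x ∈ T η
          · exact Or.inr ⟨h, hx'⟩
          · exact Or.inl (Or.inr ⟨hx, h⟩)
      · refine ⟨η, ?_⟩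
        refine ((finite_singleton n).union hη).subset ?_
        rintro x ⟨hx, hx'⟩
        rw [sUnion_insert] at hx'
        rcases hx' with hx' | hx'
        · exact Or.inl hx'
        · exact Or.inr ⟨hx, hx'⟩
  obtain ⟨η, hη⟩ := key
  apply hTinf η
  refine (hη.union hfin).subset ?_
  intro x hx
  by_cases h : x ∈ ⋃₀ F
  · exact Or.inl ⟨hx, h⟩
  · exact Or.inr h

theorem AT_not (hcof : ∀ s : ℕ → K, ∃ b, ∀ n, s n < b) (T : K → Set ℕ)
    (hTdec : ∀ ξ η, ξ ≤ η → (T η \ T ξ).Finite)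
    (hTower : ∀ R : Set ℕ, R.Infinite → ∃ ξ, (R \ T ξ).Infinite)
    {J : Set (Set ℕ)} (hJ : IsIdl J) : ¬ KatLE (AT T) (pull p0 J ∩ pull p1 J) := by
  rintro ⟨f, hf⟩
  set R : ℕ → Set ℕ := fun n => range fun m => f (Nat.pair n m) with hR
  have h1 : ∀ v, f ⁻¹' {v} ∈ pull p1 J := fun v => (hf {v} (Or.inr ⟨v, rfl⟩)).2
  have hinf : ∀ n, (R n).Infinite := by
    intro n hn
    obtain ⟨b, hb, hsub⟩ := fin_pre (pull_idl p1_surj hJ) f h1 (R n) hn
    apply hJ.proper
    have : b = Set.univ := by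
      apply eq_univ_of_forall
      intro m
      have := hsub (show Nat.pair n m ∈ f ⁻¹' (R n) from ⟨m, rfl⟩)
      simpa [p1] using this
    rwa [this] at hb
  have h2 : ∀ ξ, ∃ n, R n ⊆ T ξ := by
    intro ξ
    obtain ⟨a, ha, hsub⟩ := (hf _ (Or.inl ⟨ξ, rfl⟩)).1
    have hne : ∃ n, n ∉ a := by
      by_contra hcon
      push Not at hcon
      exact hJ.proper (by rwa [eq_univ_of_forall hcon] at ha)
    obtain ⟨n, hn⟩ := hne
    refine ⟨n, ?_⟩
    rintro _ ⟨m, rfl⟩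
    by_contra hcon
    apply hn
    have := hsub (show Nat.pair n m ∈ f ⁻¹' ((T ξ)ᶜ) from hcon)
    simpa [p0] using this
  have h3 : ∃ n, ∀ η, ∃ ξ, η ≤ ξ ∧ R n ⊆ T ξ := by
    by_contra hcon
    push Not at hcon
    choose s hs using hcon
    obtain ⟨b, hb⟩ := hcof s
    obtain ⟨n, hn⟩ := h2 b
    exact hs n b (hb n).le hn
  obtain ⟨n, hn⟩ := h3
  obtain ⟨η, hη⟩ := hTower (R n) (hinf n)
  obtain ⟨ξ, hξ, hsub⟩ := hn η
  apply hη
  exact (hTdec η ξ hξ).subset (fun x hx => ⟨hsub hx.1, hx.2⟩)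

end tower

/-! ### an independent family of functions -/

abbrev D : Type := Σ k : ℕ, (Set (Fin k) → ℕ)

def tr (X : Set ℕ) (k : ℕ) : Set (Fin k) := {i | (i : ℕ) ∈ X}

def hX (X : Set ℕ) (d : D) : ℕ := d.2 (tr X d.1)

theorem sep (F : Finset (Set ℕ)) : ∃ k0, ∀ X ∈ F, ∀ Y ∈ F, ∀ k, k0 ≤ k → tr X k = tr Y k →
    X = Y := by
  classical
  have hb : ∀ q : Set ℕ × Set ℕ, ∃ b, ∀ k, b ≤ k → tr q.1 k = tr q.2 k → q.1 = q.2 := by
    rintro ⟨X, Y⟩
    by_cases h : X = Y
    · exact ⟨0, fun _ _ _ => h⟩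
    · have : ∃ p, ¬ (p ∈ X ↔ p ∈ Y) := by
        by_contra hcon
        push Not at hcon
        exact h (Set.ext hcon)
      obtain ⟨p, hp⟩ := this
      refine ⟨p + 1, fun k hk he => ?_⟩
      exfalso
      apply hp
      have := Set.ext_iff.1 he ⟨p, hk⟩
      simpa [tr] using this
  choose b hb using hb
  refine ⟨(F ×ˢ F).sup b, fun X hX Y hY k hk he => ?_⟩
  have : b (X, Y) ≤ (F ×ˢ F).sup b := Finset.le_sup (f := b) (Finset.mem_product.2 ⟨hX, hY⟩)
  exact hb (X, Y) k (this.trans hk) he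

theorem indep (F : Finset (Set ℕ)) (v : Set ℕ → ℕ) :
    {d : D | ∀ X ∈ F, hX X d = v X}.Infinite := by
  classical
  obtain ⟨k0, hk0⟩ := sep F
  let φ : (k : ℕ) → Set (Fin k) → ℕ := fun k Y =>
    if h : ∃ X ∈ F, tr X k = Y then v h.choose else 0
  refine Set.infinite_of_injective_forall_mem (f := fun j : ℕ => (⟨k0 + j, φ (k0 + j)⟩ : D)) ?_ ?_
  · intro i j hij
    have := congrArg Sigma.fst hij
    simpa using this
  · intro j X hXF
    show φ (k0 + j) (tr X (k0 + j)) = v X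
    have h : ∃ Y ∈ F, tr Y (k0 + j) = tr X (k0 + j) := ⟨X, hXF, rfl⟩
    show (if h : ∃ Y ∈ F, tr Y (k0 + j) = tr X (k0 + j) then v h.choose else 0) = v X
    rw [dif_pos h]
    rw [hk0 _ h.choose_spec.1 X hXF _ (Nat.le_add_right _ _) h.choose_spec.2]

/-! ### an ideal above all small families -/

theorem exists_big {K : Type} [Nonempty K] (hK : ℵ₀ ≤ #K) (hpow : (2 : Cardinal.{0}) ^ #K = 𝔠) :
    ∃ J : Set (Set ℕ), IsIdl J ∧ ∀ A : Set (Set ℕ), GenIdl A → #A ≤ #K → KatLE A J := by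
  classical
  have hc : #(K → Set ℕ) ≤ #(Set ℕ) := by
    rw [← Cardinal.power_def, Cardinal.mk_set, Cardinal.mk_nat, ← Cardinal.power_mul,
      Cardinal.aleph0_mul_eq hK, hpow, Cardinal.two_power_aleph0]
  obtain ⟨g⟩ := hc
  obtain ⟨E, hE⟩ : ∃ E : Set ℕ → (K → Set ℕ), Function.Surjective E :=
    ⟨Function.invFun g, Function.invFun_surjective g.injective⟩
  obtain ⟨e, he⟩ := exists_surjective_nat D
  let G : Set ℕ × K → Set ℕ := fun q => (fun n => hX q.1 (e n)) ⁻¹' (E q.1 q.2)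
  let J : Set (Set ℕ) := {Y | ∃ F : Finset (Set ℕ × K), (∀ q ∈ F, GenIdl (range (E q.1))) ∧
    (Y \ ⋃ q ∈ F, G q).Finite}
  have hJ : IsIdl J := by
    refine ⟨?_, ?_, ?_, ?_⟩
    · rintro A ⟨F, h1, h2⟩ B hB
      exact ⟨F, h1, h2.subset (Set.sdiff_subset_sdiff_left hB)⟩
    · rintro A ⟨F, h1, h2⟩ B ⟨F', h1', h2'⟩
      refine ⟨F ∪ F', ?_, ?_⟩
      · intro q hq
        rcases Finset.mem_union.1 hq with hq | hq
        · exact h1 q hq
        · exact h1' q hq
      · refine (h2.union h2').subset ?_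
        rintro x ⟨hx, hx'⟩
        simp only [mem_iUnion, Finset.mem_union, not_exists] at hx'
        rcases hx with hx | hx
        · refine Or.inl ⟨hx, ?_⟩
          simp only [mem_iUnion, not_exists]
          exact fun q hq => hx' q (Or.inl hq)
        · refine Or.inr ⟨hx, ?_⟩
          simp only [mem_iUnion, not_exists]
          exact fun q hq => hx' q (Or.inr hq)
    · intro A hA
      exact ⟨∅, by simp, hA.subset Set.sdiff_subset⟩
    · rintro ⟨F, h1, h2⟩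
      have hv : ∀ X : Set ℕ, ∃ v : ℕ, ∀ q ∈ F, q.1 = X → v ∉ E q.1 q.2 := by
        intro X
        by_cases hX' : ∃ q ∈ F, q.1 = X
        · obtain ⟨q0, hq0, rfl⟩ := hX'
          have hg := h1 q0 hq0
          have hfin := hg ((fun q : Set ℕ × K => E q.1 q.2) '' {q | q ∈ F ∧ q.1 = q0.1})
            ((F.finite_toSet.subset (fun q hq => hq.1)).image _) (by
              rintro _ ⟨q, ⟨hq, hq'⟩, rfl⟩
              exact ⟨q.2, by rw [← hq']⟩)
          obtain ⟨v, hv⟩ := (Set.not_finite.1 hfin).nonempty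
          refine ⟨v, fun q hq hq' hmem => hv ?_⟩
          exact ⟨_, ⟨q, ⟨hq, hq'⟩, rfl⟩, hmem⟩
        · exact ⟨0, fun q hq hq' => absurd ⟨q, hq, hq'⟩ hX'⟩
      choose v hv using hv
      have hZ := Set.Infinite.preimage (f := e) (indep (F.image Prod.fst) v)
        (fun d _ => he d)
      apply hZ
      refine h2.subset ?_
      intro n hn
      refine ⟨mem_univ _, ?_⟩
      simp only [mem_iUnion, not_exists]
      intro q hq hmem
      have h3 : hX q.1 (e n) = v q.1 := hn q.1 (Finset.mem_image_of_mem _ hq)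
      have h4 : hX q.1 (e n) ∈ E q.1 q.2 := hmem
      rw [h3] at h4
      exact hv q.1 q hq rfl h4
  refine ⟨J, hJ, ?_⟩
  intro A hA hcard
  rcases A.eq_empty_or_nonempty with rfl | hne
  · exact ⟨id, fun a ha => absurd ha (notMem_empty a)⟩
  · haveI : Nonempty A := hne.to_subtype
    obtain ⟨j⟩ := hcard
    obtain ⟨X, hXE⟩ := hE (fun k => ((Function.invFun j k : A) : Set ℕ))
    have hrange : range (E X) = A := by
      rw [hXE]
      ext a
      constructor
      · rintro ⟨k, rfl⟩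
        exact (Function.invFun j k).2
      · intro ha
        obtain ⟨k, hk⟩ := Function.invFun_surjective j.injective ⟨a, ha⟩
        exact ⟨k, by simp [hk]⟩
    refine ⟨fun n => hX X (e n), fun a ha => ?_⟩
    rw [← hrange] at ha
    obtain ⟨k, rfl⟩ := ha
    refine ⟨{(X, k)}, ?_, ?_⟩
    · intro q hq
      rw [Finset.mem_singleton] at hq
      subst hq
      rw [hrange]
      exact hA
    · refine Set.finite_empty.subset ?_
      rintro n ⟨hn, hn'⟩
      apply hn'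
      simp only [Finset.mem_singleton, iUnion_iUnion_eq_left]
      exact hn

theorem katLE_dsum {A J : Set (Set ℕ)} (hJ : IsIdl J) (h : KatLE A J) :
    KatLE A (dsum (pull p0 J) (pull p1 J)) := by
  obtain ⟨f, hf⟩ := h
  refine ⟨fun n => if n % 2 = 0 then f (p0 (n / 2)) else f (p1 (n / 2)), fun a ha => ⟨?_, ?_⟩⟩
  · refine ⟨f ⁻¹' a, hf a ha, ?_⟩
    intro n hn
    simp only [mem_setOf_eq, mem_preimage] at hn
    rw [if_pos (by omega), show 2 * n / 2 = n by omega] at hn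
    exact hn
  · refine ⟨f ⁻¹' a, hf a ha, ?_⟩
    intro n hn
    simp only [mem_setOf_eq, mem_preimage] at hn
    rw [if_neg (by omega), show (2 * n + 1) / 2 = n by omega] at hn
    exact hn

theorem main (K : Type) [LinearOrder K] [Nonempty K]
    (hcof : ∀ s : ℕ → K, ∃ b, ∀ n, s n < b)
    (T : K → Set ℕ) (hTinf : ∀ ξ, (T ξ).Infinite)
    (hTdec : ∀ ξ η, ξ ≤ η → (T η \ T ξ).Finite)
    (hTower : ∀ R : Set ℕ, R.Infinite → ∃ ξ, (R \ T ξ).Infinite)
    (hpow : (2 : Cardinal.{0}) ^ #K = 𝔠) :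
    ∃ J0 J1 : Set (Set ℕ), IsIdl J0 ∧ IsIdl J1 ∧
      pKStar (J0 ∩ J1) ≤ ((#K : Cardinal.{0}) : WithTop Cardinal.{0}) ∧
      ((#K : Cardinal.{0}) : WithTop Cardinal.{0}) < pKStar (dsum J0 J1) := by
  have hK : ℵ₀ ≤ #K := by
    by_contra hcon
    push Not at hcon
    haveI : Countable K := Cardinal.mk_le_aleph0_iff.1 hcon.le
    obtain ⟨s, hs⟩ := exists_surjective_nat K
    obtain ⟨b, hb⟩ := hcof s
    obtain ⟨n, hn⟩ := hs b
    exact absurd (hb n) (by rw [hn]; exact lt_irrefl b)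
  obtain ⟨J, hJ, hbig⟩ := exists_big hK hpow
  refine ⟨pull p0 J, pull p1 J, pull_idl p0_surj hJ, pull_idl p1_surj hJ, ?_, ?_⟩
  · have hcard : #(AT T) ≤ #K := by
      refine (Cardinal.mk_union_le _ _).trans ?_
      refine (add_le_add Cardinal.mk_range_le Cardinal.mk_range_le).trans ?_
      rw [Cardinal.mk_nat, Cardinal.add_eq_left hK hK]
    refine le_trans (sInf_le ⟨AT T, AT_gen T hTinf hTdec, AT_not hcof T hTdec hTower hJ, rfl⟩) ?_
    exact WithTop.coe_le_coe.2 hcard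
  · have : ((Order.succ #K : Cardinal.{0}) : WithTop Cardinal.{0}) ≤
        pKStar (dsum (pull p0 J) (pull p1 J)) := by
      refine le_sInf ?_
      rintro _ ⟨A, hA, hnot, rfl⟩
      refine WithTop.coe_le_coe.2 (Order.succ_le_of_lt ?_)
      by_contra hcon
      push Not at hcon
      exact hnot (katLE_dsum hJ (hbig A hA hcon))
    exact lt_of_lt_of_le (WithTop.coe_lt_coe.2 (Order.lt_succ _)) this

end Pool.Agent.X43.KT
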