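import Pool.Agent.X43.KT.A

namespace Pool.Agent.X43.KT

open Cardinal Set

theorem gen_nonempty {A : Set (Set ℕ)} (hA : GenIdl A) (F : Set (Set ℕ)) (hF : F.Finite)
    (hFA : F ⊆ A) : ((⋃₀ F)ᶜ).Nonempty :=
  (Set.not_finite.1 (hA F hF hFA)).nonempty

/-- A countable family generating an ideal is Katetov below every ideal. -/
theorem countable_le {A : Set (Set ℕ)} (hA : GenIdl A) (hc : #A ≤ ℵ₀) {J : Set (Set ℕ)}
    (hJ : IsIdl J) : KatLE A J := by
  rcases A.eq_empty_or_nonempty with rfl | hne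
  · exact ⟨id, fun a ha => absurd ha (notMem_empty a)⟩
  · have hcount : A.Countable := Cardinal.le_aleph0_iff_set_countable.1 hc
    obtain ⟨a, ha⟩ := hcount.exists_eq_range hne
    have hex : ∀ n : ℕ, ∃ v, ∀ i ≤ n, v ∉ a i := by
      intro n
      obtain ⟨v, hv⟩ := gen_nonempty hA (a '' {i | i ≤ n}) ((Set.finite_le_nat n).image _) (by
        rintro _ ⟨i, _, rfl⟩
        rw [ha]
        exact ⟨i, rfl⟩)
      exact ⟨v, fun i hi hmem => hv ⟨a i, ⟨i, hi, rfl⟩, hmem⟩⟩
    choose f hf using hex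
    refine ⟨f, ?_⟩
    intro b hb
    rw [ha] at hb
    obtain ⟨i, rfl⟩ := hb
    apply hJ.fin
    refine (Set.finite_lt_nat i).subset ?_
    intro n hn
    by_contra hcon
    exact hf n i (not_lt.1 hcon) hn

/-- For every ideal there is a family of size at most continuum which generates an ideal and is
not Katetov below it. -/
theorem exists_not_le {J : Set (Set ℕ)} (hJ : IsIdl J) :
    ∃ A : Set (Set ℕ), GenIdl A ∧ ¬ KatLE A J ∧ #A ≤ 𝔠 := by
  classical
  have hc : #(ℕ → ℕ) ≤ #(Set ℕ) := by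
    rw [← Cardinal.power_def, Cardinal.mk_set, Cardinal.mk_nat, Cardinal.aleph0_power_aleph0,
      Cardinal.two_power_aleph0]
  obtain ⟨g⟩ := hc
  obtain ⟨e, he⟩ := exists_surjective_nat D
  -- the sets of an independent family
  let W : (ℕ → ℕ) → Bool → Set ℕ := fun f b => {n | hX (g f) (e n) = (if b then 0 else 1)}
  have hsel : ∀ f : ℕ → ℕ, ∃ a : Set ℕ, f ⁻¹' a ∉ J ∧ (a = W f true ∨ a = (W f true)ᶜ) := by
    intro f
    by_cases h : f ⁻¹' (W f true) ∈ J
    · refine ⟨(W f true)ᶜ, ?_, Or.inr rfl⟩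
      intro h'
      apply hJ.proper
      have := hJ.union _ h _ h'
      rwa [← preimage_union, union_compl_self, preimage_univ] at this
    · exact ⟨_, h, Or.inl rfl⟩
  choose a ha ha' using hsel
  refine ⟨range a, ?_, ?_, ?_⟩
  · intro F hF hFA hfin
    -- choose a finite set of functions
    obtain ⟨S, hS⟩ : ∃ S : Finset (ℕ → ℕ), F ⊆ a '' (S : Set (ℕ → ℕ)) := by
      obtain ⟨S, hS, hSfin, himg⟩ := exists_subset_image_finite_and.1 ⟨F, by
        rw [image_univ]; exact hFA, hF, rfl⟩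
      refine ⟨hSfin.toFinset, ?_⟩
      rw [Set.Finite.coe_toFinset]
      exact himg.subset
    have hinj : Function.Injective g := g.injective
    let v : Set ℕ → ℕ := fun X => if ∃ f ∈ S, g f = X ∧ a f = W f true then 1 else 0
    have hZ := Set.Infinite.preimage (f := e) (indep (S.image g) v) (fun d _ => he d)
    apply hZ
    refine hfin.subset ?_
    intro n hn hmem
    obtain ⟨b, hb, hnb⟩ := hmem
    obtain ⟨f, hfS, rfl⟩ := hS hb
    have h1 : hX (g f) (e n) = v (g f) := hn (g f) (Finset.mem_image_of_mem _ hfS)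
    by_cases h2 : a f = W f true
    · have hv : v (g f) = 1 := by
        show (if ∃ f' ∈ S, g f' = g f ∧ a f' = W f' true then 1 else 0) = 1
        rw [if_pos ⟨f, hfS, rfl, h2⟩]
      rw [h2] at hnb
      have h3 : hX (g f) (e n) = 0 := hnb
      omega
    · have hv : v (g f) = 0 := by
        show (if ∃ f' ∈ S, g f' = g f ∧ a f' = W f' true then 1 else 0) = 0
        rw [if_neg]
        rintro ⟨f', _, hgf, h4⟩
        have := hinj hgf
        subst this
        exact h2 h4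
      rcases ha' f with h4 | h4
      · exact h2 h4
      · rw [h4] at hnb
        apply hnb
        show hX (g f) (e n) = 0
        omega
  · rintro ⟨f, hf⟩
    exact ha f (hf _ ⟨f, rfl⟩)
  · refine Cardinal.mk_range_le.trans ?_
    rw [← Cardinal.power_def, Cardinal.mk_nat, Cardinal.aleph0_power_aleph0]

theorem pk_CH (hCH : (ℵ₁ : Cardinal.{0}) = 𝔠) {J : Set (Set ℕ)} (hJ : IsIdl J) :
    pKStar J = ((𝔠 : Cardinal.{0}) : WithTop Cardinal.{0}) := by
  apply le_antisymm
  · obtain ⟨A, h1, h2, h3⟩ := exists_not_le hJ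
    exact le_trans (sInf_le ⟨A, h1, h2, rfl⟩) (WithTop.coe_le_coe.2 h3)
  · refine le_sInf ?_
    rintro _ ⟨A, h1, h2, rfl⟩
    refine WithTop.coe_le_coe.2 ?_
    rw [← hCH, ← Cardinal.succ_aleph0]
    apply Order.succ_le_of_lt
    by_contra hcon
    push Not at hcon
    exact h2 (countable_le h1 hcon hJ)

theorem inter_idl {J0 J1 : Set (Set ℕ)} (h0 : IsIdl J0) (h1 : IsIdl J1) : IsIdl (J0 ∩ J1) :=
  ⟨fun A hA B hB => ⟨h0.down A hA.1 B hB, h1.down A hA.2 B hB⟩,
    fun A hA B hB => ⟨h0.union A hA.1 B hB.1, h1.union A hA.2 B hB.2⟩,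
    fun A hA => ⟨h0.fin A hA, h1.fin A hA⟩, fun h => h0.proper h.1⟩

theorem dsum_idl {J0 J1 : Set (Set ℕ)} (h0 : IsIdl J0) (h1 : IsIdl J1) :
    IsIdl (dsum J0 J1) := by
  refine ⟨?_, ?_, ?_, ?_⟩
  · intro A hA B hB
    exact ⟨h0.down _ hA.1 _ (fun n hn => hB hn), h1.down _ hA.2 _ (fun n hn => hB hn)⟩
  · intro A hA B hB
    exact ⟨h0.union _ hA.1 _ hB.1, h1.union _ hA.2 _ hB.2⟩
  · intro A hA
    refine ⟨h0.fin _ ?_, h1.fin _ ?_⟩
    · exact Set.Finite.preimage (f := fun n => 2 * n) (fun x _ y _ h => by simpa using h) hA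
    · exact Set.Finite.preimage (f := fun n => 2 * n + 1) (fun x _ y _ h => by simpa using h) hA
  · intro h
    exact h0.proper h.1

/-- A tower has uncountable cofinality. -/
theorem tower_cof {K : Type} [LinearOrder K] (T : K → Set ℕ) (hTinf : ∀ ξ, (T ξ).Infinite)
    (hTdec : ∀ ξ η, ξ ≤ η → (T η \ T ξ).Finite)
    (hTower : ∀ R : Set ℕ, R.Infinite → ∃ ξ, (R \ T ξ).Infinite) :
    ∀ s : ℕ → K, ∃ b, ∀ n, s n < b := by
  intro s
  by_contra hcon
  push Not at hcon
  have hint : ∀ n m : ℕ, ∃ r, m < r ∧ ∀ i ≤ n, r ∈ T (s i) := by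
    intro n m
    have : ∃ η, ∀ i ≤ n, s i ≤ η := by
      induction n with
      | zero => exact ⟨s 0, fun i hi => by rw [Nat.le_zero.1 hi]⟩
      | succ n ih =>
        obtain ⟨η, hη⟩ := ih
        refine ⟨max η (s (n + 1)), fun i hi => ?_⟩
        rcases Nat.le_succ_iff.1 hi with h | h
        · exact (hη i h).trans (le_max_left _ _)
        · rw [h]; exact le_max_right _ _
    obtain ⟨η, hη⟩ := this
    have hfin : (⋃ i ∈ {i | i ≤ n}, (T η \ T (s i))).Finite :=
      Set.Finite.biUnion (Set.finite_le_nat n) (fun i hi => hTdec _ _ (hη i hi))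
    have hinf : (T η \ ⋃ i ∈ {i | i ≤ n}, (T η \ T (s i))).Infinite := (hTinf η).diff hfin
    obtain ⟨r, hr, hmr⟩ := hinf.exists_gt m
    refine ⟨r, hmr, fun i hi => ?_⟩
    by_contra hcon
    exact hr.2 (Set.mem_biUnion (x := i) hi ⟨hr.1, hcon⟩)
  choose r hr1 hr2 using hint
  let q : ℕ → ℕ := fun n => Nat.rec (r 0 0) (fun k z => r (k + 1) z) n
  have hq : StrictMono q := strictMono_nat_of_lt_succ (fun n => hr1 (n + 1) (q n))
  have hq2 : ∀ n, ∀ i ≤ n, q n ∈ T (s i) := by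
    intro n
    cases n with
    | zero => exact hr2 0 0
    | succ n => exact hr2 (n + 1) (q n)
  obtain ⟨ξ, hξ⟩ := hTower (range q) (Set.infinite_range_of_injective hq.injective)
  obtain ⟨n, hn⟩ := hcon ξ
  apply hξ
  refine (((Set.finite_lt_nat n).image q).union (hTdec ξ (s n) hn)).subset ?_
  rintro _ ⟨⟨k, rfl⟩, hk⟩
  by_cases h : k < n
  · exact Or.inl ⟨k, h, rfl⟩
  · exact Or.inr ⟨hq2 k n (not_lt.1 h), hk⟩

end Pool.Agent.X43.KT
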