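import Pool.Agent.X43.KT.B

namespace Pool.Agent.X43.KT

open Cardinal Set

/-- The cardinal `sl_e(I, J)`: the least size of a family of functions `s : ω → I` such that every
`x : ω → ω` admits a member `s` with `{n | x n ∈ s n} ∉ J`. -/
noncomputable def sle (I J : Set (Set ℕ)) : WithTop Cardinal.{0} :=
  sInf {k | ∃ S : Set (ℕ → Set ℕ), (∀ s ∈ S, ∀ n, s n ∈ I) ∧
    (∀ x : ℕ → ℕ, ∃ s ∈ S, {n | x n ∈ s n} ∉ J) ∧
    k = ((#S : Cardinal.{0}) : WithTop Cardinal.{0})}

/-- The cardinal `sl_e(star, J)`, the minimum of `sl_e(I, J)` over all ideals `I`. -/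
noncomputable def sleStar (J : Set (Set ℕ)) : WithTop Cardinal.{0} :=
  sInf {k | ∃ I : Set (Set ℕ), IsIdl I ∧ k = sle I J}

theorem biUnion_mem {I : Set (Set ℕ)} (hI : IsIdl I) (a : ℕ → Set ℕ) (ha : ∀ i, a i ∈ I) (n : ℕ) :
    (⋃ i ∈ {i : ℕ | i ≤ n}, a i) ∈ I := by
  induction n with
  | zero =>
    refine hI.down _ (ha 0) _ ?_
    intro x hx
    obtain ⟨i, hi, h⟩ := Set.mem_iUnion₂.1 hx
    have : i = 0 := Nat.le_zero.1 hi
    rwa [this] at h
  | succ n ih =>
    refine hI.down _ (hI.union _ ih _ (ha (n + 1))) _ ?_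
    intro x hx
    obtain ⟨i, hi, h⟩ := Set.mem_iUnion₂.1 hx
    rcases Nat.le_succ_iff.1 hi with h' | h'
    · exact Or.inl (Set.mem_biUnion (x := i) h' h)
    · rw [h'] at h
      exact Or.inr h

theorem sle_CH (hCH : (ℵ₁ : Cardinal.{0}) = 𝔠) {I J : Set (Set ℕ)} (hI : IsIdl I)
    (hJ : IsIdl J) : sle I J = ((𝔠 : Cardinal.{0}) : WithTop Cardinal.{0}) := by
  apply le_antisymm
  · refine le_trans (sInf_le ⟨range fun (x : ℕ → ℕ) (n : ℕ) => ({x n} : Set ℕ), ?_, ?_, rfl⟩)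
      (WithTop.coe_le_coe.2 ?_)
    · rintro _ ⟨x, rfl⟩ n
      exact hI.fin _ (finite_singleton _)
    · intro x
      refine ⟨_, ⟨x, rfl⟩, ?_⟩
      have : {n | x n ∈ ({x n} : Set ℕ)} = Set.univ := by
        apply eq_univ_of_forall
        intro n
        exact mem_singleton _
      rw [this]
      exact hJ.proper
    · refine Cardinal.mk_range_le.trans ?_
      rw [← Cardinal.power_def, Cardinal.mk_nat, Cardinal.aleph0_power_aleph0]
  · refine le_sInf ?_
    rintro _ ⟨S, h1, h2, rfl⟩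
    refine WithTop.coe_le_coe.2 ?_
    rw [← hCH, ← Cardinal.succ_aleph0]
    apply Order.succ_le_of_lt
    by_contra hcon
    push Not at hcon
    have hne : S.Nonempty := by
      obtain ⟨s, hs, _⟩ := h2 id
      exact ⟨s, hs⟩
    obtain ⟨a, ha⟩ := (Cardinal.le_aleph0_iff_set_countable.1 hcon).exists_eq_range hne
    have haS : ∀ i, a i ∈ S := fun i => by rw [ha]; exact ⟨i, rfl⟩
    have hex : ∀ n : ℕ, ∃ v, ∀ i ≤ n, v ∉ a i n := by
      intro n
      have hm := biUnion_mem hI (fun i => a i n) (fun i => h1 _ (haS i) n) n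
      by_contra hc
      push Not at hc
      apply hI.proper
      have : (⋃ i ∈ {i : ℕ | i ≤ n}, a i n) = Set.univ := by
        apply eq_univ_of_forall
        intro v
        obtain ⟨i, hi, hv⟩ := hc v
        exact Set.mem_biUnion (x := i) hi hv
      rwa [this] at hm
    choose x hx using hex
    obtain ⟨s, hs, hns⟩ := h2 x
    rw [ha] at hs
    obtain ⟨i, rfl⟩ := hs
    apply hns
    apply hJ.fin
    refine (Set.finite_lt_nat i).subset ?_
    intro n hn
    by_contra hc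
    exact hx n i (not_lt.1 hc) hn

theorem sleStar_CH (hCH : (ℵ₁ : Cardinal.{0}) = 𝔠) {J : Set (Set ℕ)}
    (hJ : IsIdl J) : sleStar J = ((𝔠 : Cardinal.{0}) : WithTop Cardinal.{0}) := by
  apply le_antisymm
  · exact le_trans (sInf_le ⟨J, hJ, rfl⟩) (sle_CH hCH hJ hJ).le
  · refine le_sInf ?_
    rintro _ ⟨I, hI, rfl⟩
    exact (sle_CH hCH hI hJ).ge

end Pool.Agent.X43.KT
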